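import Pool.Agent.helper64.PB.SpecL

set_option autoImplicit false

namespace Pool.Agent.PB

/-- the restriction of the last two variables to constants -/
def BCK_phi (n : ℕ) (a b : Bool) : Fin (n + 2) → BF n :=
  Fin.append (fun i x => x i) ![fC a n, fC b n]

theorem BCK_phi_left (n : ℕ) (a b : Bool) (i : Fin n) (x : Fin n → Bool) :
    BCK_phi n a b (Fin.castAdd 2 i) x = x i := by
  unfold BCK_phi
  rw [Fin.append_left]

theorem BCK_phi_zero (n : ℕ) (a b : Bool) (x : Fin n → Bool) :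
    BCK_phi n a b (Fin.natAdd n 0) x = a := by
  unfold BCK_phi
  rw [Fin.append_right]
  rfl

theorem BCK_phi_one (n : ℕ) (a b : Bool) (x : Fin n → Bool) :
    BCK_phi n a b (Fin.natAdd n 1) x = b := by
  unfold BCK_phi
  rw [Fin.append_right]
  rfl

theorem BCK_phi_ok (n : ℕ) (a b : Bool) (i : Fin (n + 2)) :
    (∃ j, BCK_phi n a b i = fun x => x j) ∨ ∃ v, BCK_phi n a b i = fC v n := by
  refine Fin.addCases (fun j => ?_) (fun j => ?_) i
  · left
    refine ⟨j, ?_⟩
    funext x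
    exact BCK_phi_left n a b j x
  · right
    rcases Fin.exists_fin_two.1 ⟨j, rfl⟩ with h | h
    · refine ⟨a, ?_⟩
      funext x
      rw [h, BCK_phi_zero]
      rfl
    · refine ⟨b, ?_⟩
      funext x
      rw [h, BCK_phi_one]
      rfl

theorem BCK_aux (hRST : RST_stmt) (hSTR : STR_stmt) (hPOL : POL_stmt) (G : Set Gate) (A : Lang) (hG : G.Finite)
    (Φ : ∀ n, BF n → BF (n + 2)) (a b : Bool)
    (hΦ : ∀ n (f : BF n) (x : Fin n → Bool), Φ n f (fun i => BCK_phi n a b i x) = f x)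
    (h : PolyG G (ext Φ A)) : InPPoly A := by
  obtain ⟨c, hc⟩ := h
  obtain ⟨C, hC⟩ := hSTR G hG
  obtain ⟨d, hd⟩ := hPOL (C + 1) c
  refine ⟨d, fun n => ?_⟩
  have h1 : Size G (Φ n (A n)) ((n + 2) ^ c + c) := hc (n + 2) (by omega)
  have h2 := hC _ _ _ h1
  have h3 := (hRST (n + 2) n (Φ n (A n)) _ (BCK_phi n a b) (BCK_phi_ok n a b)).2 h2
  have h4 : (fun x => Φ n (A n) fun i => BCK_phi n a b i x) = A n := by
    funext x
    exact hΦ n (A n) x
  rw [h4] at h3
  obtain ⟨l, hl1, hl2, hl3⟩ := h3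
  refine ⟨l, hl1, hl2.trans (le_trans ?_ (hd n)), hl3⟩
  have h5 : (C + 1) * ((n + 2) ^ c + n + c + 2) = C * ((n + 2) ^ c + c) + C * (n + 2) + (n + 2) ^ c + n + c + 2 := by
    ring
  rw [h5]
  have h6 := Nat.zero_le (C * (n + 2))
  have h7 := Nat.zero_le ((n + 2) ^ c)
  omega

theorem BCK (hRST : RST_stmt) (hSTR : STR_stmt) (hPOL : POL_stmt) : BCK_stmt := by
  intro G A hG
  refine ⟨fun h => ?_, fun h => ?_, fun h => ?_⟩
  · refine BCK_aux hRST hSTR hPOL G A hG _ true false (fun n f x => ?_) h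
    have hne : ¬ ∀ i, BCK_phi n true false i x = true := fun hh => by
      have := hh (Fin.natAdd n 1)
      rw [BCK_phi_one] at this
      exact absurd this (by decide)
    simp only [eA, BCK_phi_zero, BCK_phi_one, BCK_phi_left, hne, decide_false]
    simp
  · refine BCK_aux hRST hSTR hPOL G A hG _ false true (fun n f x => ?_) h
    have hne : ∃ i, BCK_phi n false true i x = true := ⟨Fin.natAdd n 1, BCK_phi_one n false true x⟩
    simp only [eO, BCK_phi_zero, BCK_phi_one, BCK_phi_left, hne, decide_true]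
    simp
  · refine BCK_aux hRST hSTR hPOL G A hG _ true false (fun n f x => ?_) h
    simp only [eS, BCK_phi_zero, BCK_phi_one, BCK_phi_left]
    simp

end Pool.Agent.PB
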