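import Pool.Agent.helper64.PB.SpecC

/-! # Row pb:ESD -/

set_option autoImplicit false

namespace Pool.Agent.PB

/-- the shadow -/
def ESD_S {m : ℕ} (u : BF (m + 1)) : BF (m + 1) := fun x =>
  if (∀ i, x i = x 0) then x 0 else if x 0 = false then u x else !(u fun i => !(x i))

theorem ESD_S_c {m : ℕ} (u : BF (m + 1)) {x : Fin (m + 1) → Bool} (h : ∀ i, x i = x 0) :
    ESD_S u x = x 0 := by
  unfold ESD_S
  rw [if_pos h]

theorem ESD_S_f {m : ℕ} (u : BF (m + 1)) {x : Fin (m + 1) → Bool} (h : ¬ ∀ i, x i = x 0)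
    (h0 : x 0 = false) : ESD_S u x = u x := by
  unfold ESD_S
  rw [if_neg h, if_pos h0]

theorem ESD_S_t {m : ℕ} (u : BF (m + 1)) {x : Fin (m + 1) → Bool} (h : ¬ ∀ i, x i = x 0)
    (h0 : x 0 = true) : ESD_S u x = !(u fun i => !(x i)) := by
  unfold ESD_S
  rw [if_neg h, if_neg (by rw [h0]; decide)]

theorem ESD_N_c {m : ℕ} {x : Fin (m + 1) → Bool} (h : ∀ i, x i = x 0) : fNE m x = x 0 := by
  unfold fNE
  rw [if_pos h]

theorem ESD_N_n {m : ℕ} {x : Fin (m + 1) → Bool} (h : ¬ ∀ i, x i = x 0) : fNE m x = !(x 0) := by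
  unfold fNE
  rw [if_neg h]

/-- `fD(t, b, u)` -/
def ESD_Gn : BF 3 := fun y => fD ![y 1, y 2, y 0]
/-- `maj(u, v, t)` -/
def ESD_Ga : BF 4 := fun y => fD ![y 0, y 1, fD ![y 0, y 1, y 2]]
/-- `maj(u, v, b)` -/
def ESD_Go : BF 4 := fun y => fD ![y 0, y 1, fD ![y 0, y 1, y 3]]

theorem ESD_Gn_eq : ∀ u t b : Bool, ESD_Gn ![u, t, b] = ((t && b) || (t && !u) || (b && !u)) := by
  decide

theorem ESD_Ga_eq : ∀ u v t b : Bool, ESD_Ga ![u, v, t, b] = ((u && v) || (u && t) || (v && t)) := by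
  decide

theorem ESD_Go_eq : ∀ u v t b : Bool, ESD_Go ![u, v, t, b] = ((u && v) || (u && b) || (v && b)) := by
  decide

theorem ESD_and {m : ℕ} (u v : BF (m + 1)) : (ESD_S fun x => u x && v x) =
    fun x => ESD_Ga ![ESD_S u x, ESD_S v x, x 0, fNE m x] := by
  funext x
  rw [ESD_Ga_eq]
  by_cases h : ∀ i, x i = x 0
  · rw [ESD_S_c _ h, ESD_S_c _ h, ESD_S_c _ h]
    cases x 0 <;> rfl
  · cases h0 : x 0
    · rw [ESD_S_f _ h h0, ESD_S_f _ h h0, ESD_S_f _ h h0]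
      cases u x <;> cases v x <;> rfl
    · rw [ESD_S_t _ h h0, ESD_S_t _ h h0, ESD_S_t _ h h0]
      cases (u fun i => !(x i)) <;> cases (v fun i => !(x i)) <;> rfl

theorem ESD_or {m : ℕ} (u v : BF (m + 1)) : (ESD_S fun x => u x || v x) =
    fun x => ESD_Go ![ESD_S u x, ESD_S v x, x 0, fNE m x] := by
  funext x
  rw [ESD_Go_eq]
  by_cases h : ∀ i, x i = x 0
  · rw [ESD_S_c _ h, ESD_S_c _ h, ESD_S_c _ h, ESD_N_c h]
    cases x 0 <;> rfl
  · cases h0 : x 0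
    · rw [ESD_S_f _ h h0, ESD_S_f _ h h0, ESD_S_f _ h h0, ESD_N_n h, h0]
      cases u x <;> cases v x <;> rfl
    · rw [ESD_S_t _ h h0, ESD_S_t _ h h0, ESD_S_t _ h h0, ESD_N_n h, h0]
      cases (u fun i => !(x i)) <;> cases (v fun i => !(x i)) <;> rfl

theorem ESD_not {m : ℕ} (u : BF (m + 1)) : (ESD_S fun x => !(u x)) =
    fun x => ESD_Gn ![ESD_S u x, x 0, fNE m x] := by
  funext x
  rw [ESD_Gn_eq]
  by_cases h : ∀ i, x i = x 0
  · rw [ESD_S_c _ h, ESD_S_c _ h, ESD_N_c h]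
    cases x 0 <;> rfl
  · cases h0 : x 0
    · rw [ESD_S_f _ h h0, ESD_S_f _ h h0, ESD_N_n h, h0]
      cases u x <;> rfl
    · rw [ESD_S_t _ h h0, ESD_S_t _ h h0, ESD_N_n h, h0]
      cases (u fun i => !(x i)) <;> rfl

theorem ESD_var {m : ℕ} (j : Fin (m + 1)) : (ESD_S fun x => x j) = fun x => x j := by
  funext x
  by_cases h : ∀ i, x i = x 0
  · rw [ESD_S_c _ h, h j]
  · cases h0 : x 0
    · rw [ESD_S_f _ h h0]
    · rw [ESD_S_t _ h h0, Bool.not_not]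

theorem ESD_c0 {m : ℕ} : ESD_S (fC false (m + 1)) = fun x => x 0 := by
  funext x
  by_cases h : ∀ i, x i = x 0
  · rw [ESD_S_c _ h]
  · cases h0 : x 0
    · rw [ESD_S_f _ h h0]
      rfl
    · rw [ESD_S_t _ h h0]
      rfl

theorem ESD_c1 {m : ℕ} : ESD_S (fC true (m + 1)) = fNE m := by
  funext x
  by_cases h : ∀ i, x i = x 0
  · rw [ESD_S_c _ h, ESD_N_c h]
  · cases h0 : x 0
    · rw [ESD_S_f _ h h0, ESD_N_n h, h0]
      rfl
    · rw [ESD_S_t _ h h0, ESD_N_n h, h0]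
      rfl

theorem ESD_self {m : ℕ} (f : BF (m + 1)) (hf : SelfDual f) (h0 : f (fun _ => false) = false) :
    ESD_S f = f := by
  funext x
  by_cases h : ∀ i, x i = x 0
  · rw [ESD_S_c _ h]
    cases hx : x 0
    · have : x = fun _ => false := by
        funext i
        rw [h i, hx]
      rw [this, h0]
    · have : x = fun i => !((fun _ => false : Fin (m + 1) → Bool) i) := by
        funext i
        rw [h i, hx]
        rfl
      rw [this, hf, h0]
      rfl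
  · cases hx : x 0
    · rw [ESD_S_f _ h hx]
    · rw [ESD_S_t _ h hx, hf, Bool.not_not]

theorem ESD_mono (G : Set Gate) {n : ℕ} (f : BF n) {s s' : ℕ} (h : Size G f s) (hs : s ≤ s') :
    Size G f s' := by
  obtain ⟨l, h1, h2, h3⟩ := h
  exact ⟨l, h1, h2.trans hs, h3⟩

theorem ESD_fD3 (G : Set Gate) (hCLP : CLP_stmt) (h : InCl G fD) {n : ℕ} (a b c : BF n)
    (ha : InCl G a) (hb : InCl G b) (hc : InCl G c) : InCl G (fun y => fD ![a y, b y, c y]) := by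
  have := hCLP.2 G 3 n fD ![a, b, c] h (by
    intro i
    fin_cases i
    · exact ha
    · exact hb
    · exact hc)
  have e : (fun x => fD fun i => (![a, b, c] : Fin 3 → BF n) i x) = fun y => fD ![a y, b y, c y] := by
    funext x
    congr 1
    funext i
    fin_cases i <;> rfl
  rwa [e] at this

theorem ESD (hSIM : SIM_stmt) (hSEL : SEL_stmt) (hAPP : APP_stmt) (hCLP : CLP_stmt) :
    ESD_stmt := by
  intro G hD
  obtain ⟨c1, h1⟩ := hSEL G hD
  have hv : ∀ (n : ℕ) (j : Fin n), InCl G (fun x : Fin n → Bool => x j) := hCLP.1 G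
  obtain ⟨cn, hcn⟩ : InCl G ESD_Gn :=
    ESD_fD3 G hCLP hD (fun y => y 1) (fun y => y 2) (fun y => y 0) (hv 3 1) (hv 3 2) (hv 3 0)
  obtain ⟨ca, hca⟩ : InCl G ESD_Ga :=
    ESD_fD3 G hCLP hD (fun y => y 0) (fun y => y 1) (fun y => fD ![y 0, y 1, y 2]) (hv 4 0) (hv 4 1)
      (ESD_fD3 G hCLP hD (fun y => y 0) (fun y => y 1) (fun y => y 2) (hv 4 0) (hv 4 1) (hv 4 2))
  obtain ⟨co, hco⟩ : InCl G ESD_Go :=
    ESD_fD3 G hCLP hD (fun y => y 0) (fun y => y 1) (fun y => fD ![y 0, y 1, y 3]) (hv 4 0) (hv 4 1)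
      (ESD_fD3 G hCLP hD (fun y => y 0) (fun y => y 1) (fun y => y 3) (hv 4 0) (hv 4 1) (hv 4 3))
  refine ⟨c1 + (cn + ca + co), ?_⟩
  intro n hn f hf hf0 s hs
  obtain ⟨m, rfl⟩ : ∃ m, n = m + 1 := ⟨n - 1, by omega⟩
  obtain ⟨l0, hl0, hlen, hav⟩ := h1 m
  have key := hSIM G (m + 1) ESD_S (fun x => x 0) (fNE m) l0 (cn + ca + co) ESD_Ga ESD_Go ESD_Gn
    hl0 (Or.inr ⟨0, rfl⟩) hav (fun j => by rw [ESD_var]; exact Or.inr ⟨j, rfl⟩)
    (fun v => by
      cases v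
      · rw [ESD_c0]
        exact Or.inr ⟨0, rfl⟩
      · rw [ESD_c1]
        exact hav)
    (ESD_mono G _ hca (by omega)) (ESD_mono G _ hco (by omega)) (ESD_mono G _ hcn (by omega))
    ESD_and ESD_or ESD_not f s hs
  rw [ESD_self f hf hf0] at key
  apply ESD_mono G _ key
  calc l0.length + (cn + ca + co) * s ≤ c1 * (m + 1) + (cn + ca + co) * s := by omega
    _ ≤ (c1 + (cn + ca + co)) * (s + (m + 1)) := by
        have e : (c1 + (cn + ca + co)) * (s + (m + 1)) =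
            (c1 * (m + 1) + (cn + ca + co) * s) + (c1 * s + (cn + ca + co) * (m + 1)) := by ring
        rw [e]
        exact Nat.le_add_right _ _

end Pool.Agent.PB
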