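import Pool.Agent.helper64.PB.SpecF

set_option autoImplicit false

namespace Pool.Agent.PB

open Finset

theorem SPF_aux (P : Type) [DecidableEq P] (𝓕 : Finset (Finset P)) (j k : ℕ) (Q : ℕ → Prop)
    (hQ : ∀ n, Q n ↔ n ≤ j ∧ ∃ Y : Finset P, Y.card = n ∧ k ^ (j - Y.card) < (𝓕.filter fun B => Y ⊆ B).card)
    (h0 : Q 0) : ∃ n, Q n ∧ ∀ m, Q m → m ≤ n := by
  classical
  refine ⟨Nat.findGreatest Q j, Nat.findGreatest_spec (P := Q) (Nat.zero_le j) h0, ?_⟩
  intro m hm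
  exact Nat.le_findGreatest ((hQ m).1 hm).1 hm

theorem SPF : SPF_stmt := by
  classical
  intro P _ 𝓕 j k hj hk
  obtain ⟨n, hn, hmax⟩ := SPF_aux P 𝓕 j k
    (fun n => n ≤ j ∧ ∃ Y : Finset P, Y.card = n ∧ k ^ (j - Y.card) < (𝓕.filter fun B => Y ⊆ B).card)
    (fun n => Iff.rfl) ⟨Nat.zero_le j, ∅, rfl, by simpa using hk⟩
  obtain ⟨hnj, Y, hYn, hY⟩ := hn
  refine ⟨Y, ?_, hY, ?_⟩
  · rcases Nat.lt_or_ge Y.card j with h | h
    · exact h
    · exfalso
      have hYj : Y.card = j := by omega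
      rw [hYj, Nat.sub_self, pow_zero] at hY
      obtain ⟨A, hA, B, hB, hAB⟩ := Finset.one_lt_card.1 hY
      rw [Finset.mem_filter] at hA hB
      have e1 : Y = A := Finset.eq_of_subset_of_card_le hA.2 (by rw [hj A hA.1, hYj])
      have e2 : Y = B := Finset.eq_of_subset_of_card_le hB.2 (by rw [hj B hB.1, hYj])
      exact hAB (e1.symm.trans e2)
  · intro Z hYZ hZ
    by_contra hlt
    rw [not_le] at hlt
    have h1 := hmax Z.card ⟨hZ, Z, rfl, hlt⟩
    have h2 := Finset.card_lt_card hYZ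
    omega

end Pool.Agent.PB
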